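import Mathlib

open MeasureTheory ProbabilityTheory Set Filter Topology
open scoped ENNReal

namespace Pool.Agent.H.MP_cbf971_pr

noncomputable def J (lam : ℝ → ℝ) (γ : ℝ) (E : ℕ → ℝ) : ℕ → ℝ≥0∞
  | 0 => 0
  | k + 1 => sInf {t | J lam γ E k ≤ t ∧ ENNReal.ofReal (E k) ≤
      ∫⁻ s in {s : ℝ | J lam γ E k < ENNReal.ofReal s ∧ ENNReal.ofReal s ≤ t}, ENNReal.ofReal (lam ((k + γ) / (s + 1)))}

noncomputable def p (lam : ℝ → ℝ) (x γ : ℝ) : ℝ≥0∞ :=
  Measure.infinitePi (fun _ : ℕ => expMeasure 1) {E | (∀ t, {k | J lam γ E (k + 1) ≤ ENNReal.ofReal t}.Finite) ∧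
    Tendsto (fun t => ({k | J lam γ E (k + 1) ≤ ENNReal.ofReal t}.ncard : ℝ) / t) atTop (𝓝 x)}

def Stable (lam : ℝ → ℝ) (x : ℝ) : Prop :=
  lam x = x ∧ (∀ᶠ y in 𝓝[<] x, 0 ≤ y → y < lam y) ∧ ∀ᶠ y in 𝓝[>] x, lam y < y

variable {lam : ℝ → ℝ} {γ : ℝ} {E : ℕ → ℝ} {k : ℕ}

lemma J_mono : Monotone (J lam γ E) := monotone_nat_of_le_succ fun _ => le_sInf fun _ ht => ht.1

lemma set_eq {τ t : ℝ} (h : 0 ≤ τ) (ht : 0 ≤ t) :
    {s : ℝ | ENNReal.ofReal τ < ENNReal.ofReal s ∧ ENNReal.ofReal s ≤ ENNReal.ofReal t} = Ioc τ t := by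
  ext s
  simp only [mem_ofPred_eq, ENNReal.ofReal_lt_ofReal_iff_of_nonneg h, ENNReal.ofReal_le_ofReal_iff ht, mem_Ioc]

lemma J_le {τ τ' c : ℝ} (h : J lam γ E k = ENNReal.ofReal τ) (h0 : 0 ≤ τ) (h1 : τ ≤ τ') (hc : 0 ≤ c)
    (h2 : ∀ s ∈ Ioc τ τ', c ≤ lam ((k + γ) / (s + 1))) (h3 : E k ≤ c * (τ' - τ)) :
    J lam γ E (k + 1) ≤ ENNReal.ofReal τ' := by
  refine sInf_le ⟨h ▸ ENNReal.ofReal_le_ofReal h1, ?_⟩
  rw [h, set_eq h0 (h0.trans h1)]
  refine le_trans ?_ (setLIntegral_mono' (f := fun _ => ENNReal.ofReal c) measurableSet_Ioc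
    fun s hs => ENNReal.ofReal_le_ofReal (h2 s hs))
  rw [setLIntegral_const, Real.volume_Ioc, ← ENNReal.ofReal_mul hc]
  exact ENNReal.ofReal_le_ofReal h3

lemma le_J {τ M : ℝ} (h : J lam γ E k = ENNReal.ofReal τ) (h0 : 0 ≤ τ) (hM : 0 < M) (hγ : 0 ≤ γ)
    (h2 : ∀ x ≥ 0, lam x ≤ M) : ENNReal.ofReal (τ + E k / M) ≤ J lam γ E (k + 1) := by
  refine le_sInf fun t ht => ?_
  rcases eq_or_ne t ⊤ with rfl | h3
  · exact le_top
  obtain ⟨h4, h5⟩ := ht
  rw [← ENNReal.ofReal_toReal h3] at h4 h5 ⊢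
  rw [h] at h4 h5
  rw [ENNReal.ofReal_le_ofReal_iff ENNReal.toReal_nonneg] at h4
  rw [set_eq h0 ENNReal.toReal_nonneg] at h5
  have h6 := h5.trans (setLIntegral_mono' (g := fun _ => ENNReal.ofReal M) measurableSet_Ioc
    fun s hs => ENNReal.ofReal_le_ofReal (h2 _ (div_nonneg (by positivity) (by linarith [hs.1]))))
  rw [setLIntegral_const, Real.volume_Ioc, ← ENNReal.ofReal_mul hM.le,
    ENNReal.ofReal_le_ofReal_iff (mul_nonneg hM.le (by linarith)), ← div_le_iff₀' hM] at h6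
  exact ENNReal.ofReal_le_ofReal (by linarith)

lemma renew (u : ℕ → ℝ) (hu : Monotone u) (h0 : u 0 = 0) (M : ℝ) (hM : 0 < M)
    (h : Tendsto (fun k : ℕ => u k / k) atTop (𝓝 M⁻¹)) : (∀ t, {k | u (k + 1) ≤ t}.Finite) ∧
      Tendsto (fun t => ({k | u (k + 1) ≤ t}.ncard : ℝ) / t) atTop (𝓝 M) := by
  have h1 : Tendsto u atTop atTop := by
    refine (h.pos_mul_atTop (inv_pos.2 hM) tendsto_natCast_atTop_atTop).congr' ?_
    filter_upwards [eventually_gt_atTop 0] with k hk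
    field_simp
  have h2 : ∀ t, ∃ k, t < u (k + 1) := fun t => ((h1.comp (tendsto_add_atTop_nat 1)).eventually_gt_atTop t).exists
  have h3 : ∀ t, {k | u (k + 1) ≤ t} = Iio (Nat.find (h2 t)) := fun t => by
    ext k
    simp only [mem_ofPred_eq, mem_Iio, Nat.lt_find_iff, not_lt]
    exact ⟨fun hk m hm => (hu (by omega)).trans hk, fun hk => hk k le_rfl⟩
  simp only [h3, ncard_Iio_nat]
  refine ⟨fun t => finite_Iio _, ?_⟩
  have h4 : Tendsto (fun t => Nat.find (h2 t)) atTop atTop := by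
    refine tendsto_atTop.2 fun K => ?_
    filter_upwards [eventually_ge_atTop (u K)] with t ht
    exact (Nat.le_find_iff _ _).2 fun m hm => not_lt.2 ((hu hm).trans ht)
  have h5 : Tendsto (fun k : ℕ => u (k + 1) / k) atTop (𝓝 M⁻¹) := by
    have := (h.comp (tendsto_add_atTop_nat 1)).mul ((tendsto_inv_atTop_nhds_zero_nat (𝕜 := ℝ)).const_add 1)
    rw [add_zero, mul_one] at this
    refine this.congr' ?_
    filter_upwards [eventually_gt_atTop 0] with k hk
    simp only [Function.comp]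
    push_cast
    field_simp
  have h6 : Tendsto (fun t => t / (Nat.find (h2 t) : ℝ)) atTop (𝓝 M⁻¹) := by
    refine tendsto_of_tendsto_of_tendsto_of_le_of_le' (h.comp h4) (h5.comp h4) ?_ (Eventually.of_forall fun t => ?_)
    · filter_upwards [eventually_ge_atTop 0] with t ht
      refine div_le_div_of_nonneg_right ?_ (Nat.cast_nonneg _)
      change u (Nat.find (h2 t)) ≤ t
      rcases hn : Nat.find (h2 t) with _ | n
      · rwa [h0]
      · exact not_lt.1 (Nat.find_min (h2 t) (show n < _ by omega))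
    · exact div_le_div_of_nonneg_right (Nat.find_spec (h2 t)).le (Nat.cast_nonneg _)
  simpa using h6.inv₀ (inv_pos.2 hM).ne'

noncomputable def la (M x : ℝ) : ℝ := max (1 / 20 - x) 0 + M * max 0 (min 1 (4 * x - 1))

lemma la1 {M x : ℝ} (h : x ≤ 1 / 20) : la M x = 1 / 20 - x := by
  rw [la, max_eq_left (by linarith), max_eq_left (min_le_of_right_le (by linarith))]; ring

lemma la2 {M x : ℝ} (h : 1 / 20 ≤ x) (h' : x ≤ 1 / 4) : la M x = 0 := by
  rw [la, max_eq_right (by linarith), max_eq_left (min_le_of_right_le (by linarith))]; ring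

lemma la3 {M x : ℝ} (h : 1 / 4 ≤ x) (h' : x ≤ 1 / 2) : la M x = M * (4 * x - 1) := by
  rw [la, max_eq_right (by linarith), min_eq_right (by linarith), max_eq_right (by linarith)]; ring

lemma la4 {M x : ℝ} (h : 1 / 2 ≤ x) : la M x = M := by
  rw [la, max_eq_right (by linarith), min_eq_left (by linarith), max_eq_right (by linarith)]; ring

lemma la_cases (M x : ℝ) : (x ≤ 1 / 20 ∧ la M x = 1 / 20 - x) ∨ (1 / 20 ≤ x ∧ x ≤ 1 / 4 ∧ la M x = 0) ∨
    (1 / 4 ≤ x ∧ x ≤ 1 / 2 ∧ la M x = M * (4 * x - 1)) ∨ (1 / 2 ≤ x ∧ la M x = M) := by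
  rcases le_total x (1 / 20) with h | h
  · exact Or.inl ⟨h, la1 h⟩
  rcases le_total x (1 / 4) with h1 | h1
  · exact Or.inr (Or.inl ⟨h, h1, la2 h h1⟩)
  rcases le_total x (1 / 2) with h2 | h2
  · exact Or.inr (Or.inr (Or.inl ⟨h1, h2, la3 h1 h2⟩))
  · exact Or.inr (Or.inr (Or.inr ⟨h2, la4 h2⟩))

lemma la_le {M : ℝ} (hM : 1 ≤ M) : ∀ x ≥ 0, la M x ≤ M := fun x hx => by
  rcases la_cases M x with h | h | h | h <;> nlinarith [h.1, h.2]

lemma good {M τ : ℝ} (hM : 1 ≤ M) (hγ : 0 ≤ γ) (k₀ : ℕ) (hk : k₀ ≤ 1) (h1 : 1 ≤ k₀ + γ) (h0 : 0 ≤ τ) (hτ : τ ≤ 1 / 2)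
    (hJ : J (la M) γ E k₀ = ENNReal.ofReal τ) (hE : ∀ k, 0 ≤ E k)
    (hS : ∀ k : ℕ, ∑ i ∈ Finset.range k, E i ≤ M * k / 4)
    (hL : Tendsto (fun k : ℕ => (∑ i ∈ Finset.range k, E i) / k) atTop (𝓝 1)) :
    (∀ t, {k | J (la M) γ E (k + 1) ≤ ENNReal.ofReal t}.Finite) ∧
      Tendsto (fun t => ({k | J (la M) γ E (k + 1) ≤ ENNReal.ofReal t}.ncard : ℝ) / t) atTop (𝓝 M) := by
  have hM0 : 0 < M := by linarith
  have hs : ∀ j, 0 ≤ ∑ i ∈ Finset.range j, E (k₀ + i) := fun j => Finset.sum_nonneg fun _ _ => hE _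
  have h2 : ∀ j, J (la M) γ E (k₀ + j) = ENNReal.ofReal (τ + (∑ i ∈ Finset.range j, E (k₀ + i)) / M) := by
    intro j
    induction j with
    | zero => simpa using hJ
    | succ j ih =>
      have h3 : 0 ≤ τ + (∑ i ∈ Finset.range j, E (k₀ + i)) / M := by have := hs j; positivity
      have h4 := le_J ih h3 hM0 hγ (la_le hM)
      rw [Finset.sum_range_succ, add_div, ← add_assoc, ← add_assoc]
      refine le_antisymm (J_le (c := M) ih h3 (le_add_of_nonneg_right (div_nonneg (hE _) hM0.le)) hM0.le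
        (fun s h => (la4 ?_).ge) (le_of_eq (by field_simp; ring))) h4
      have h5 := hS (k₀ + (j + 1))
      rw [Finset.sum_range_add, Finset.sum_range_succ _ j] at h5
      have h6 : 0 ≤ ∑ i ∈ Finset.range k₀, E i := Finset.sum_nonneg fun _ _ => hE _
      have h7 : (k₀ : ℝ) ≤ 1 := by exact_mod_cast hk
      have h8 : (∑ i ∈ Finset.range j, E (k₀ + i)) / M + E (k₀ + j) / M ≤ (j + 2) / 4 := by
        rw [← add_div, div_le_iff₀ hM0]
        push_cast at h5
        nlinarith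
      have h9 : (0 : ℝ) ≤ j := Nat.cast_nonneg j
      rw [le_div_iff₀ (by linarith [h.1])]
      push_cast
      linarith [h.2]
  have h3 : ∀ k, J (la M) γ E k ≠ ⊤ := fun k =>
    ne_top_of_le_ne_top (by rw [h2]; exact ENNReal.ofReal_ne_top) (J_mono (Nat.le_add_left k k₀))
  obtain ⟨r1, r2⟩ := renew (fun k => (J (la M) γ E k).toReal) (fun a b h => ENNReal.toReal_mono (h3 b) (J_mono h))
    rfl M hM0 (by
      have := (hL.div_const M).add
        (tendsto_const_div_atTop_nhds_zero_nat (τ - (∑ i ∈ Finset.range k₀, E i) / M))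
      rw [add_zero, one_div] at this
      refine this.congr' ?_
      filter_upwards [eventually_ge_atTop k₀] with k hk
      obtain ⟨j, rfl⟩ := Nat.exists_eq_add_of_le hk
      rw [h2, ENNReal.toReal_ofReal (by have := hs j; positivity), Finset.sum_range_add]
      ring)
  have h4 : ∀ t ≥ 0, {k | J (la M) γ E (k + 1) ≤ ENNReal.ofReal t} = {k | (J (la M) γ E (k + 1)).toReal ≤ t} :=
    fun t ht => Set.ext fun k => ENNReal.le_ofReal_iff_toReal_le (h3 _) ht
  refine ⟨fun t => ?_, r2.congr' ?_⟩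
  · refine (r1 (max t 0)).subset ?_
    rw [← h4 _ (le_max_right _ _)]
    exact fun k hk => le_trans hk (ENNReal.ofReal_le_ofReal (le_max_left _ _))
  · filter_upwards [eventually_ge_atTop 0] with t ht
    rw [h4 t ht]

lemma bad {M : ℝ} (hM : 1 ≤ M) (hE : ∀ k, 0 < E k) :
    ¬ Tendsto (fun t => ({k | J (la M) (1 / 4) E (k + 1) ≤ ENNReal.ofReal t}.ncard : ℝ) / t) atTop (𝓝 M) := by
  have h1 : ∀ k : ℕ, ENNReal.ofReal (4 * k) ≤ J (la M) (1 / 4) E k := by
    intro k
    induction k with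
    | zero => simp
    | succ k ih =>
      refine le_sInf fun t ht => not_lt.1 fun h => ?_
      have hk : (0 : ℝ) ≤ k := Nat.cast_nonneg k
      have h2 := ht.2.trans (setLIntegral_mono' (g := fun _ => 0)
        ((measurableSet_lt measurable_const ENNReal.measurable_ofReal).inter
          (measurableSet_le ENNReal.measurable_ofReal measurable_const)) fun s hs => by
        have h3 := (ENNReal.ofReal_lt_ofReal_iff_of_nonneg (by positivity)).1 (ih.trans_lt hs.1)
        have h4 := (ENNReal.ofReal_lt_ofReal_iff (by positivity)).1 (hs.2.trans_lt h)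
        push_cast at h4
        rw [la2 (by rw [le_div_iff₀ (by linarith)]; linarith) (by rw [div_le_iff₀ (by linarith)]; linarith)]
        simp)
      rw [lintegral_zero, nonpos_iff_eq_zero, ENNReal.ofReal_eq_zero] at h2
      linarith [hE k]
  intro h
  have h2 : M ≤ 1 / 4 := by
    refine le_of_tendsto h ?_
    filter_upwards [eventually_gt_atTop 0] with t ht
    have h3 : {k | J (la M) (1 / 4) E (k + 1) ≤ ENNReal.ofReal t}.ncard ≤ ⌊t / 4⌋₊ := by
      rw [← ncard_Iio_nat ⌊t / 4⌋₊]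
      refine ncard_le_ncard (fun k hk => ?_) (finite_Iio _)
      have h4 := (ENNReal.ofReal_le_ofReal_iff ht.le).1 ((h1 (k + 1)).trans hk)
      exact Nat.le_floor (by linarith : ((k + 1 : ℕ) : ℝ) ≤ t / 4)
    have h4 : (⌊t / 4⌋₊ : ℝ) ≤ t / 4 := Nat.floor_le (by positivity)
    have h5 : ({k | J (la M) (1 / 4) E (k + 1) ≤ ENNReal.ofReal t}.ncard : ℝ) ≤ ⌊t / 4⌋₊ := by exact_mod_cast h3
    rw [div_le_iff₀ ht]
    linarith
  linarith

instance : IsProbabilityMeasure (expMeasure 1) := isProbabilityMeasure_expMeasure one_pos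

lemma exp_Iic (x : ℝ) (hx : 0 ≤ x) : expMeasure 1 (Iic x) = ENNReal.ofReal (1 - Real.exp (-x)) := by
  rw [← ofReal_cdf, cdf_expMeasure_eq one_pos, if_pos hx, one_mul]

lemma exp_pos : ∀ᵐ x ∂expMeasure 1, 0 < x := by
  rw [ae_iff]
  simp only [not_lt]
  exact (exp_Iic 0 le_rfl).trans (by simp)

lemma exp_mean : Integrable id (expMeasure 1) ∧ ∫ x, x ∂expMeasure 1 = 1 := by
  have h0 : 0 ≤ᵐ[expMeasure 1] id := exp_pos.mono fun x hx => hx.le
  have h1 : ∫⁻ x, ENNReal.ofReal (id x) ∂expMeasure 1 = 1 := by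
    rw [lintegral_eq_lintegral_meas_lt _ h0 aemeasurable_id,
      setLIntegral_congr_fun (g := fun t => ENNReal.ofReal (Real.exp (-t))) measurableSet_Ioi fun t ht => by
        have := prob_compl_eq_one_sub (μ := expMeasure 1) (measurableSet_Iic (a := t))
        rw [compl_Iic, exp_Iic t (le_of_lt ht), ← ENNReal.ofReal_one,
          ← ENNReal.ofReal_sub _ (by simpa using le_of_lt ht), sub_sub_cancel] at this
        exact this,
      ← ofReal_integral_eq_lintegral_ofReal (integrableOn_exp_neg_Ioi 0)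
        (Eventually.of_forall fun t => (Real.exp_pos _).le), integral_exp_neg_Ioi_zero, ENNReal.ofReal_one]
  refine ⟨⟨aestronglyMeasurable_id, (hasFiniteIntegral_iff_ofReal h0).2 (by rw [h1]; simp)⟩, ?_⟩
  have := integral_eq_lintegral_of_nonneg_ae h0 aestronglyMeasurable_id
  rw [h1] at this
  exact this

lemma ae_good : ∀ᵐ E ∂Measure.infinitePi (fun _ : ℕ => expMeasure 1), (∀ k, 0 < E k) ∧
    Tendsto (fun k : ℕ => (∑ i ∈ Finset.range k, E i) / (k : ℝ)) atTop (𝓝 1) := by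
  have mp := measurePreserving_eval_infinitePi (fun _ : ℕ => expMeasure 1)
  refine (ae_all_iff.2 fun k => (mp k).quasiMeasurePreserving.ae exp_pos).and ?_
  have h := strong_law_ae_real (μ := Measure.infinitePi (fun _ : ℕ => expMeasure 1)) (fun i E => E i)
    (((mp 0).integrable_comp aestronglyMeasurable_id).2 exp_mean.1)
    (fun i j hij => (iIndepFun_infinitePi (X := fun _ => id) fun _ => measurable_id).indepFun hij)
    fun i => ⟨(measurable_pi_apply i).aemeasurable, (measurable_pi_apply 0).aemeasurable,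
      (mp i).map_eq.trans (mp 0).map_eq.symm⟩
  have h2 : ∫ E, E 0 ∂Measure.infinitePi (fun _ : ℕ => expMeasure 1) = 1 := by
    have := integral_map (μ := Measure.infinitePi (fun _ : ℕ => expMeasure 1)) (φ := Function.eval 0) (f := fun x => x)
      (measurable_pi_apply 0).aemeasurable aestronglyMeasurable_id
    rw [(mp 0).map_eq, exp_mean.2] at this
    exact this.symm
  rw [h2] at h
  exact h

theorem main : ∃ (lam : ℝ → ℝ) (x₁ x₂ : ℝ), ContinuousOn lam (Ici 0) ∧ (∃ C, ∀ x ≥ 0, lam x ∈ Icc 0 C) ∧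
    {x | 0 ≤ x ∧ lam x = x}.Finite ∧ x₁ < x₂ ∧ {x | 0 ≤ x ∧ Stable lam x} = {x₁, x₂} ∧
    ¬ MonotoneOn (p lam x₂) (Ici 0) ∧ ¬ AntitoneOn (p lam x₂) (Ici 0) := by
  obtain ⟨m, hm⟩ : ∃ m : ℕ, Measure.infinitePi (fun _ : ℕ => expMeasure 1)
      {E | E 0 ≤ 1 / 40 ∧ ∀ k : ℕ, ∑ i ∈ Finset.range k, E i ≤ (m + 1 : ℝ) * k / 4} ≠ 0 := by
    by_contra hc
    push Not at hc
    have h1 := measure_iUnion_null hc
    have h2 := ((measurePreserving_eval_infinitePi (fun _ : ℕ => expMeasure 1) 0).measure_preimage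
      (measurableSet_Iic (a := (1 / 40 : ℝ))).nullMeasurableSet).trans (exp_Iic _ (by norm_num))
    have h3 : Measure.infinitePi (fun _ : ℕ => expMeasure 1) (Function.eval 0 ⁻¹' Iic (1 / 40 : ℝ)) ≤ 0 := by
      rw [← h1]
      refine measure_mono_ae ?_
      filter_upwards [ae_good] with E hE h
      obtain ⟨C, hC⟩ := hE.2.bddAbove_range
      obtain ⟨m, hm⟩ := exists_nat_ge (4 * C)
      refine mem_iUnion.2 ⟨m, h, fun k => ?_⟩
      rcases Nat.eq_zero_or_pos k with rfl | hk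
      · simp
      · have hk' : (0 : ℝ) < k := by exact_mod_cast hk
        have := (div_le_iff₀ hk').1 (hC ⟨k, rfl⟩)
        nlinarith
    rw [h2, nonpos_iff_eq_zero, ENNReal.ofReal_eq_zero, sub_nonpos, Real.one_le_exp_iff] at h3
    norm_num at h3
  obtain ⟨M, hM, hm⟩ : ∃ M : ℝ, 1 ≤ M ∧ Measure.infinitePi (fun _ : ℕ => expMeasure 1)
      {E | E 0 ≤ 1 / 40 ∧ ∀ k : ℕ, ∑ i ∈ Finset.range k, E i ≤ M * k / 4} ≠ 0 := ⟨m + 1, by simp, hm⟩
  have p0 : p (la M) M 0 ≠ 0 := by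
    refine ne_bot_of_le_ne_bot hm (measure_mono_ae ?_)
    filter_upwards [ae_good] with E hE h
    have h1 : J (la M) 0 E (0 + 1) ≤ ENNReal.ofReal (1 / 2) :=
      J_le (τ := 0) (c := 1 / 20) (by simp [J]) le_rfl (by norm_num) (by norm_num)
        (fun s _ => by simp [la1]) (by linarith [h.1])
    have h2 := ne_top_of_le_ne_top ENNReal.ofReal_ne_top h1
    exact good hM le_rfl 1 le_rfl (by simp) ENNReal.toReal_nonneg
      ((ENNReal.le_ofReal_iff_toReal_le h2 (by norm_num)).1 h1) (ENNReal.ofReal_toReal h2).symm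
      (fun k => (hE.1 k).le) h.2 hE.2
  have p1 : p (la M) M 1 ≠ 0 := by
    refine ne_bot_of_le_ne_bot hm (measure_mono_ae ?_)
    filter_upwards [ae_good] with E hE h
    exact good (τ := 0) hM zero_le_one 0 zero_le_one (by simp) le_rfl (by norm_num) (by simp [J])
      (fun k => (hE.1 k).le) h.2 hE.2
  have p2 : p (la M) M (1 / 4) = 0 := by
    refine measure_eq_zero_iff_ae_notMem.2 ?_
    filter_upwards [ae_good] with E hE h
    exact bad hM hE.1 h.2
  have hfix : ∀ x, la M x = x → x = 1 / 40 ∨ x = M ∨ (x = M / (4 * M - 1) ∧ 1 / 4 ≤ x ∧ x < 1 / 2) := fun x hx => by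
    rcases la_cases M x with h | h | h | h
    · exact Or.inl (by linarith [h.2])
    · exfalso; linarith [h.1, h.2.2]
    · refine Or.inr (Or.inr ⟨?_, h.1, ?_⟩)
      · rw [eq_div_iff (by linarith)]
        linarith [h.2.2]
      · nlinarith [h.2.2, h.2.1]
    · exact Or.inr (Or.inl (by linarith [h.2]))
  refine ⟨la M, 1 / 40, M, by unfold la; fun_prop, ⟨M, fun x hx => ⟨by unfold la; positivity, la_le hM x hx⟩⟩,
    (toFinite {1 / 40, M, M / (4 * M - 1)}).subset fun x hx => ?_, by linarith, ?_, fun h => ?_, fun h => ?_⟩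
  · rcases hfix x hx.2 with h | h | h <;> simp [h, -one_div]
  · ext x
    simp only [mem_ofPred_eq, mem_insert_iff, mem_singleton_iff]
    constructor
    · rintro ⟨-, h1, -, h2⟩
      rcases hfix x h1 with h | h | h
      exacts [Or.inl h, Or.inr h, by
        obtain ⟨y, h3, h4⟩ := (h2.and (Ioo_mem_nhdsGT h.2.2)).exists
        rw [la3 h.2.1 h.2.2.le] at h1
        rw [la3 (h.2.1.trans h4.1.le) h4.2.le] at h3
        nlinarith [h4.1]]
    · rintro (rfl | rfl)
      · refine ⟨by norm_num, by rw [la1 (by norm_num)]; norm_num, ?_, ?_⟩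
        · filter_upwards [self_mem_nhdsWithin] with y hy _
          rw [mem_Iio] at hy
          rw [la1 (by linarith)]
          linarith
        · filter_upwards [Ioo_mem_nhdsGT (show (1 / 40 : ℝ) < 1 / 20 by norm_num)] with y hy
          rw [la1 hy.2.le]
          linarith [hy.1]
      · refine ⟨by linarith, la4 (by linarith), ?_, ?_⟩
        · filter_upwards [Ioo_mem_nhdsLT (show (1 / 2 : ℝ) < x by linarith)] with y hy _
          rw [la4 hy.1.le]
          exact hy.2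
        · filter_upwards [self_mem_nhdsWithin] with y hy
          rw [mem_Ioi] at hy
          rwa [la4 (by linarith)]
  · exact p0 (nonpos_iff_eq_zero.1 (p2 ▸ h (mem_Ici.2 le_rfl) (mem_Ici.2 (by norm_num)) (by norm_num)))
  · exact p1 (nonpos_iff_eq_zero.1 (p2 ▸ h (mem_Ici.2 (by norm_num)) (mem_Ici.2 (by norm_num)) (by norm_num)))

end Pool.Agent.H.MP_cbf971_pr
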